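import Pool.Agent.H121.GA.IfB

/-! GA-GRAF: Graf's bound for laws with a density at most `D / (1 + |v|)^4` -/

set_option autoImplicit false

open scoped BigOperators InnerProductSpace Topology ENNReal
open Filter MeasureTheory

namespace Pool.Agent.H307.GA

open Pool.Agent.H121.GA
open Pool.Agent.H121.ME (Gra)
open Pool.Agent.H410.Z987 (upper1)

/-- laws satisfying `Dd` are at most the measure with the density -/
theorem dd_le {D : ℝ} {μ : Measure ℝ} (h : Dd D μ) :
    μ ≤ volume.withDensity (fun v : ℝ => ENNReal.ofReal (D / (1 + |v|) ^ 4)) := by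
  rw [Measure.le_iff]
  intro A hA
  rw [withDensity_apply _ hA]
  exact h A hA

theorem dens_meas (D : ℝ) : Measurable (fun v : ℝ => ENNReal.ofReal (D / (1 + |v|) ^ 4)) := by
  have h1 : Measurable (fun v : ℝ => |v|) := continuous_abs.measurable
  exact ((measurable_const.div ((measurable_const.add h1).pow_const 4))).ennreal_ofReal

theorem dd_int {D : ℝ} {μ : Measure ℝ} (h : Dd D μ) (f : ℝ → ℝ≥0∞) (hf : Measurable f) :
    ∫⁻ v, f v ∂μ ≤ ∫⁻ v : ℝ, ENNReal.ofReal (D / (1 + |v|) ^ 4) * f v := by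
  refine (lintegral_mono' (dd_le h) le_rfl).trans ?_
  rw [lintegral_withDensity_eq_lintegral_mul _ (dens_meas D) hf]
  exact le_of_eq rfl

/-- the mass of the tail -/
theorem dd_tail {D : ℝ} (hD : 0 < D) {μ : Measure ℝ} (h : Dd D μ) :
    μ {v : ℝ | 2 * Real.pi * D < |v|} ≤ ENNReal.ofReal (1 / 2) := by
  have hπ := Real.pi_pos
  set K := 2 * Real.pi * D with hK
  have hK0 : 0 < K := by positivity
  have hm : MeasurableSet {v : ℝ | K < |v|} := measurableSet_lt measurable_const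
    continuous_abs.measurable
  refine (h _ hm).trans ?_
  have h1 : ∫⁻ v in {v : ℝ | K < |v|}, ENNReal.ofReal (D / (1 + |v|) ^ 4) ≤
      ∫⁻ v in {v : ℝ | K < |v|}, ENNReal.ofReal ((D / (1 + K)) * (1 + v ^ 2)⁻¹) := by
    refine setLIntegral_mono' hm ?_
    intro v hv
    refine ENNReal.ofReal_le_ofReal ?_
    have hv' : K < |v| := hv
    have h2 : (1 + K) * (1 + v ^ 2) ≤ (1 + |v|) ^ 4 := by
      have h3 : 1 + v ^ 2 ≤ (1 + |v|) ^ 2 := by
        have := sq_abs v
        nlinarith [abs_nonneg v]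
      have h4 : 1 + K ≤ (1 + |v|) ^ 2 := by nlinarith [abs_nonneg v]
      calc (1 + K) * (1 + v ^ 2) ≤ (1 + |v|) ^ 2 * (1 + |v|) ^ 2 := by gcongr
        _ = (1 + |v|) ^ 4 := by ring
    rw [div_mul_eq_mul_div, ← div_eq_mul_inv, div_div]
    have h5 : 0 < (1 + K) * (1 + v ^ 2) := by positivity
    calc D / (1 + |v|) ^ 4 ≤ D / ((1 + K) * (1 + v ^ 2)) := by gcongr
      _ = D / ((1 + v ^ 2) * (1 + K)) := by rw [mul_comm]
  refine h1.trans ((setLIntegral_le_lintegral _ _).trans ?_)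
  rw [← ofReal_integral_eq_lintegral_ofReal (integrable_inv_one_add_sq.const_mul _)
    (Eventually.of_forall fun v => by positivity)]
  rw [integral_const_mul, integral_univ_inv_one_add_sq]
  refine ENNReal.ofReal_le_ofReal ?_
  rw [div_mul_eq_mul_div, div_le_div_iff₀ (by positivity) (by norm_num)]
  nlinarith

theorem dd_center {D : ℝ} (hD : 0 < D) {μ : Measure ℝ} [IsProbabilityMeasure μ] (h : Dd D μ) :
    ENNReal.ofReal (1 / 2) ≤ μ {v : ℝ | |v| ≤ 2 * Real.pi * D} := by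
  have hm : MeasurableSet {v : ℝ | |v| ≤ 2 * Real.pi * D} := measurableSet_le
    continuous_abs.measurable measurable_const
  have h1 := measure_add_measure_compl (μ := μ) hm
  rw [measure_univ] at h1
  have h2 : {v : ℝ | |v| ≤ 2 * Real.pi * D}ᶜ = {v : ℝ | 2 * Real.pi * D < |v|} := by
    ext v; simp
  rw [h2] at h1
  have h3 := dd_tail hD h
  have h4 : (1 : ℝ≥0∞) ≤ μ {v : ℝ | |v| ≤ 2 * Real.pi * D} + ENNReal.ofReal (1 / 2) := by
    rw [← h1]; gcongr
  have h5 : (1 : ℝ≥0∞) = ENNReal.ofReal (1 / 2) + ENNReal.ofReal (1 / 2) := by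
    rw [← ENNReal.ofReal_add (by norm_num) (by norm_num)]
    norm_num
  rw [h5] at h4
  exact (ENNReal.add_le_add_iff_right ENNReal.ofReal_ne_top).1 h4

theorem lowerD (s lam K : ℝ) (hs : 0 < s) (hl : 0 < lam) (hK : 0 ≤ K) (μ : Measure ℝ)
    (hμ : ENNReal.ofReal (1 / 2) ≤ μ {v : ℝ | |v| ≤ K}) (a g : ℂ) (ha : 0 < a.im) :
    ENNReal.ofReal ((‖g‖ / (1 + lam * K * ‖a‖)) ^ s) * ENNReal.ofReal (1 / 2) ≤
      ∫⁻ v : ℝ, ENNReal.ofReal (‖g / (1 + (lam : ℂ) * (v : ℂ) * a)‖ ^ s) ∂μ := by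
  have hm : MeasurableSet {v : ℝ | |v| ≤ K} := measurableSet_le
    continuous_abs.measurable measurable_const
  have h1 : ∫⁻ _ in {v : ℝ | |v| ≤ K}, ENNReal.ofReal ((‖g‖ / (1 + lam * K * ‖a‖)) ^ s) ∂μ ≤
      ∫⁻ v in {v : ℝ | |v| ≤ K}, ENNReal.ofReal (‖g / (1 + (lam : ℂ) * (v : ℂ) * a)‖ ^ s) ∂μ := by
    refine setLIntegral_mono' hm ?_
    intro v hv
    have hv' : |v| ≤ K := hv
    refine ENNReal.ofReal_le_ofReal ?_
    refine Real.rpow_le_rpow (by positivity) ?_ hs.le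
    rw [norm_div]
    have h2 : ‖(1 : ℂ) + (lam : ℂ) * (v : ℂ) * a‖ ≤ 1 + lam * K * ‖a‖ := by
      refine (norm_add_le _ _).trans ?_
      rw [norm_one, norm_mul, norm_mul, Complex.norm_real, Complex.norm_real, Real.norm_eq_abs,
        Real.norm_eq_abs, abs_of_pos hl]
      gcongr
    have h3 : 0 < ‖(1 : ℂ) + (lam : ℂ) * (v : ℂ) * a‖ := by
      rw [norm_pos_iff]
      intro h0
      have h4 := congrArg Complex.im h0
      have h5 := congrArg Complex.re h0
      simp at h4 h5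
      rcases h4 with h4 | h4
      · rcases h4 with h4 | h4
        · exact hl.ne' h4
        · subst h4
          simp at h5
      · exact ha.ne' h4
    gcongr
  refine le_trans ?_ (h1.trans (setLIntegral_le_lintegral _ _))
  rw [setLIntegral_const]
  gcongr

/-- the elementary inequality -/
theorem elem (s lam K N G R ρ D : ℝ) (hs : 0 < s) (hs1 : s < 1) (hl : 0 < lam) (hK : 0 ≤ K)
    (hN : 0 < N) (hG : 0 ≤ G) (hR1 : R ≤ 1) (hR2 : R ≤ (G / N) ^ 2) (hR0 : 0 ≤ R) (hD : 0 < D)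
    (hρ : (1 ≤ 2 * G + 2 * lam * N ∧ ρ = D) ∨
      (2 * G + 2 * lam * N < 1 ∧ ρ = D / (1 + 1 / (2 * lam * N)) ^ 4)) :
    ρ * ((Real.pi / lam) * R) ≤ (D * (Real.pi / lam) * (1 + lam ^ 2) * (4 + K) ^ s) *
      (G / (1 + lam * K * N)) ^ s := by
  have hπ := Real.pi_pos
  have hk0 : 0 ≤ G / (lam * N) := by positivity
  have hRk2 : R ≤ lam ^ 2 * (G / (lam * N)) ^ 2 := by
    refine hR2.trans (le_of_eq ?_)
    field_simp
  -- the bound by the power
  have hpow1 : G / (lam * N) ≤ 1 → (G / (lam * N)) ^ 2 ≤ (G / (lam * N)) ^ s := by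
    intro h1
    rcases eq_or_lt_of_le hk0 with h0 | h0
    · rw [← h0, Real.zero_rpow hs.ne']
      norm_num
    · rw [← Real.rpow_natCast]
      exact Real.rpow_le_rpow_of_exponent_ge h0 h1 (by push_cast; linarith)
  have hRk : R ≤ (1 + lam ^ 2) * (G / (lam * N)) ^ s := by
    rcases le_or_gt (G / (lam * N)) 1 with h1 | h1
    · have h2 := hpow1 h1
      have h3 : 0 ≤ (G / (lam * N)) ^ s := by positivity
      nlinarith [sq_nonneg lam]
    · have h2 : 1 ≤ (G / (lam * N)) ^ s := Real.one_le_rpow h1.le hs.le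
      nlinarith [sq_nonneg lam]
  have hmul : ∀ x : ℝ, 0 ≤ x → x ≤ (4 + K) * (G / (1 + lam * K * N)) →
      x ^ s ≤ (4 + K) ^ s * (G / (1 + lam * K * N)) ^ s := by
    intro x hx hle
    rw [← Real.mul_rpow (by positivity) (by positivity)]
    exact Real.rpow_le_rpow hx hle hs.le
  rcases hρ with ⟨hc, hρ⟩ | ⟨hc, hρ⟩
  · -- the pole is near
    have hmain : R ≤ (1 + lam ^ 2) * ((4 + K) ^ s * (G / (1 + lam * K * N)) ^ s) := by
      rcases le_or_gt (G / (lam * N)) 1 with h1 | h1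
      · refine hRk.trans ?_
        refine mul_le_mul_of_nonneg_left (hmul _ hk0 ?_) (by positivity)
        have h2 : G ≤ lam * N := by rwa [div_le_one (by positivity)] at h1
        rw [← mul_div_assoc, div_le_div_iff₀ (by positivity) (by positivity)]
        have h3 : 1 ≤ 4 * (lam * N) := by nlinarith
        have h4 : 1 + lam * K * N ≤ (4 + K) * (lam * N) := by nlinarith
        nlinarith
      · have h2 : lam * N < G := by rwa [one_lt_div (by positivity)] at h1
        have h3 : (1 : ℝ) ^ s ≤ (4 + K) ^ s * (G / (1 + lam * K * N)) ^ s := by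
          refine hmul 1 zero_le_one ?_
          rw [← mul_div_assoc, le_div_iff₀ (by positivity)]
          nlinarith [mul_nonneg hK hG]
        rw [Real.one_rpow] at h3
        nlinarith [sq_nonneg lam]
    rw [hρ]
    calc D * (Real.pi / lam * R)
        ≤ D * (Real.pi / lam * ((1 + lam ^ 2) * ((4 + K) ^ s * (G / (1 + lam * K * N)) ^ s))) := by
          gcongr
      _ = _ := by ring
  · -- the pole is far
    have hb : 0 < 1 + 1 / (2 * lam * N) := by positivity
    have hb1 : 1 ≤ 1 + 1 / (2 * lam * N) := by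
      have : 0 < 1 / (2 * lam * N) := by positivity
      linarith
    have h1 : (1 + 1 / (2 * lam * N)) ^ s ≤ (1 + 1 / (2 * lam * N)) ^ 4 := by
      rw [← Real.rpow_natCast]
      exact Real.rpow_le_rpow_of_exponent_le hb1 (by push_cast; linarith)
    have h2 : ρ ≤ D / (1 + 1 / (2 * lam * N)) ^ s := by
      rw [hρ]
      gcongr
    have h3 : (G / (lam * N)) ^ s / (1 + 1 / (2 * lam * N)) ^ s ≤
        (4 + K) ^ s * (G / (1 + lam * K * N)) ^ s := by
      rw [← Real.div_rpow hk0 hb.le]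
      refine hmul _ (by positivity) ?_
      have h4 : G / (lam * N) / (1 + 1 / (2 * lam * N)) = G / (lam * N + 1 / 2) := by
        field_simp
      rw [h4, ← mul_div_assoc, div_le_div_iff₀ (by positivity) (by positivity)]
      have h5 : 1 + lam * K * N ≤ (4 + K) * (lam * N + 1 / 2) := by nlinarith [mul_pos hl hN]
      nlinarith
    have hρ0 : 0 ≤ ρ := by rw [hρ]; positivity
    calc ρ * (Real.pi / lam * R)
        ≤ (D / (1 + 1 / (2 * lam * N)) ^ s) *
            (Real.pi / lam * ((1 + lam ^ 2) * (G / (lam * N)) ^ s)) := by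
          gcongr
      _ = D * (Real.pi / lam) * (1 + lam ^ 2) *
            ((G / (lam * N)) ^ s / (1 + 1 / (2 * lam * N)) ^ s) := by ring
      _ ≤ D * (Real.pi / lam) * (1 + lam ^ 2) *
            ((4 + K) ^ s * (G / (1 + lam * K * N)) ^ s) := by gcongr
      _ = _ := by ring

/-- **GA-GRAF** -/
theorem graD : S_graD := by
  intro s D lam hs hs1 hD hl
  have hπ := Real.pi_pos
  set K := 2 * Real.pi * D with hKd
  have hK : 0 ≤ K := by positivity
  set C' := D * (Real.pi / lam) * (1 + lam ^ 2) * (4 + K) ^ s with hC'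
  have hC'0 : 0 < C' := by positivity
  refine ⟨1 + 2 * C', by positivity, ?_⟩
  intro μ _ hμ a g ε hε hε1 ha hg haa
  have hna : 0 < ‖a‖ := by
    rw [norm_pos_iff]
    intro h
    simp [h] at ha
  have hcen := dd_center hD hμ
  have hlow := lowerD s lam K hs hl hK μ hcen a g ha
  -- measurability
  have hX : Measurable (fun v : ℝ => ‖g / (1 + (lam : ℂ) * (v : ℂ) * a)‖) := by
    refine Measurable.norm ?_
    refine measurable_const.div ?_
    exact (measurable_const.add ((measurable_const.mul Complex.measurable_ofReal).mul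
      measurable_const))
  set X : ℝ → ℝ := fun v => ‖g / (1 + (lam : ℂ) * (v : ℂ) * a)‖ with hXd
  have hX0 : ∀ v, 0 ≤ X v := fun v => norm_nonneg _
  set B : Set ℝ := {v | 1 < X v} with hB
  have hBm : MeasurableSet B := measurableSet_lt measurable_const hX
  -- the density on `B`
  obtain ⟨ρ, hρ, hρB⟩ : ∃ ρ : ℝ, ((1 ≤ 2 * ‖g‖ + 2 * lam * ‖a‖ ∧ ρ = D) ∨
      (2 * ‖g‖ + 2 * lam * ‖a‖ < 1 ∧ ρ = D / (1 + 1 / (2 * lam * ‖a‖)) ^ 4)) ∧
      ∀ v ∈ B, D / (1 + |v|) ^ 4 ≤ ρ := by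
    rcases le_or_gt 1 (2 * ‖g‖ + 2 * lam * ‖a‖) with h1 | h1
    · refine ⟨D, Or.inl ⟨h1, rfl⟩, fun v _ => ?_⟩
      refine div_le_self hD.le ?_
      have : 1 ≤ 1 + |v| := by linarith [abs_nonneg v]
      exact one_le_pow₀ this
    · refine ⟨_, Or.inr ⟨h1, rfl⟩, fun v hv => ?_⟩
      have hv' : 1 < ‖g / (1 + (lam : ℂ) * (v : ℂ) * a)‖ := hv
      rw [norm_div] at hv'
      have h3 : 0 < ‖(1 : ℂ) + (lam : ℂ) * (v : ℂ) * a‖ := by
        rcases eq_or_lt_of_le (norm_nonneg ((1 : ℂ) + (lam : ℂ) * (v : ℂ) * a)) with h0 | h0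
        · rw [← h0, div_zero] at hv'
          linarith
        · exact h0
      rw [one_lt_div h3] at hv'
      have h4 : ‖(1 : ℂ)‖ - ‖-((lam : ℂ) * (v : ℂ) * a)‖ ≤ ‖(1 : ℂ) - -((lam : ℂ) * (v : ℂ) * a)‖ :=
        norm_sub_norm_le _ _
      rw [norm_neg, sub_neg_eq_add, norm_one, norm_mul, norm_mul, Complex.norm_real,
        Complex.norm_real, Real.norm_eq_abs, Real.norm_eq_abs, abs_of_pos hl] at h4
      have h5 : 1 / 2 < lam * |v| * ‖a‖ := by nlinarith
      have h6 : 1 / (2 * lam * ‖a‖) ≤ |v| := by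
        rw [div_le_iff₀ (by positivity)]
        nlinarith
      gcongr
  have hρ0 : 0 ≤ ρ := by
    rcases hρ with ⟨_, h⟩ | ⟨_, h⟩ <;> rw [h] <;> positivity
  -- the part on `B`
  have hpart : ∫⁻ v in B, ENNReal.ofReal (ε * X v ^ 2) ∂μ ≤
      ENNReal.ofReal (ρ * ((Real.pi / lam) * (ε * ‖g‖ ^ 2 / a.im))) := by
    rw [← lintegral_indicator hBm]
    have hfm : Measurable (B.indicator fun v => ENNReal.ofReal (ε * X v ^ 2)) :=
      ((measurable_const.mul (hX.pow_const 2)).ennreal_ofReal).indicator hBm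
    refine (dd_int hμ _ hfm).trans ?_
    have h1 : ∫⁻ v : ℝ, ENNReal.ofReal (D / (1 + |v|) ^ 4) *
        (B.indicator fun v => ENNReal.ofReal (ε * X v ^ 2)) v ≤
        ∫⁻ v : ℝ, ENNReal.ofReal ρ * ENNReal.ofReal (ε * X v ^ 2) := by
      refine lintegral_mono fun v => ?_
      by_cases hv : v ∈ B
      · rw [Set.indicator_of_mem hv]
        gcongr
        exact hρB v hv
      · rw [Set.indicator_of_notMem hv, mul_zero]
        exact zero_le
    refine h1.trans ?_
    rw [lintegral_const_mul' _ _ ENNReal.ofReal_ne_top]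
    have h2 := upper1 1 lam one_pos hl volume (fun A _ => by simp) a g ε hε ha
    rw [mul_one] at h2
    rw [ENNReal.ofReal_mul hρ0]
    gcongr
  -- the part outside of `B`
  have hrest : ∫⁻ v in Bᶜ, ENNReal.ofReal (ε * X v ^ 2) ∂μ ≤
      ∫⁻ v : ℝ, ENNReal.ofReal (X v ^ s) ∂μ := by
    refine le_trans ?_ (setLIntegral_le_lintegral Bᶜ _)
    refine setLIntegral_mono' hBm.compl ?_
    intro v hv
    have hv' : X v ≤ 1 := by
      have : ¬ (1 < X v) := hv
      exact not_lt.1 this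
    refine ENNReal.ofReal_le_ofReal ?_
    have h1 : X v ^ 2 ≤ X v ^ s := by
      rcases eq_or_lt_of_le (hX0 v) with h0 | h0
      · rw [← h0, Real.zero_rpow hs.ne']
        norm_num
      · rw [← Real.rpow_natCast]
        exact Real.rpow_le_rpow_of_exponent_ge h0 hv' (by push_cast; linarith)
    have h2 : 0 ≤ X v ^ 2 := sq_nonneg _
    nlinarith
  have hR1 : ε * ‖g‖ ^ 2 / a.im ≤ 1 := by rw [div_le_one ha]; exact hg
  have hR2 : ε * ‖g‖ ^ 2 / a.im ≤ (‖g‖ / ‖a‖) ^ 2 := by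
    rw [div_pow, div_le_div_iff₀ ha (by positivity)]
    nlinarith [sq_nonneg ‖g‖]
  have hel := elem s lam K ‖a‖ ‖g‖ (ε * ‖g‖ ^ 2 / a.im) ρ D hs hs1 hl hK hna (norm_nonneg _) hR1 hR2
    (by positivity) hD hρ
  rw [← hC'] at hel
  -- conclusion
  have hsplit : ∫⁻ v : ℝ, ENNReal.ofReal (ε * X v ^ 2) ∂μ =
      ∫⁻ v in B, ENNReal.ofReal (ε * X v ^ 2) ∂μ + ∫⁻ v in Bᶜ, ENNReal.ofReal (ε * X v ^ 2) ∂μ :=
    (lintegral_add_compl _ hBm).symm
  change ∫⁻ v : ℝ, ENNReal.ofReal (ε * X v ^ 2) ∂μ ≤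
    ENNReal.ofReal (1 + 2 * C') * ∫⁻ v : ℝ, ENNReal.ofReal (X v ^ s) ∂μ
  rw [hsplit, ENNReal.ofReal_add zero_le_one (by positivity), add_mul, ENNReal.ofReal_one, one_mul,
    add_comm]
  refine add_le_add hrest (hpart.trans ?_)
  refine (ENNReal.ofReal_le_ofReal hel).trans ?_
  calc ENNReal.ofReal (C' * (‖g‖ / (1 + lam * K * ‖a‖)) ^ s)
      = ENNReal.ofReal (2 * C') *
          (ENNReal.ofReal ((‖g‖ / (1 + lam * K * ‖a‖)) ^ s) * ENNReal.ofReal (1 / 2)) := by
        rw [← ENNReal.ofReal_mul (by positivity), ← ENNReal.ofReal_mul (by positivity)]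
        congr 1
        ring
    _ ≤ ENNReal.ofReal (2 * C') * ∫⁻ v : ℝ, ENNReal.ofReal (X v ^ s) ∂μ := by
        gcongr

end Pool.Agent.H307.GA
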